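import Pool.Agent.H64GT.Game

set_option autoImplicit false

/-!
# Finite products of sequential `c_ω`-spaces

Let `X 1, ..., X n` be regular sequential `c_ω`-spaces. Their product is a sequential `c_ω`-space

* if all factors but one are Fréchet-Urysohn or consist of points of the first kind (for instance,
  points with a countably compact neighbourhood), the remaining factor being arbitrary;
* if every factor is Fréchet-Urysohn, or the space of a topological group, or has locally compact
  pieces, or has separated pieces, or consists of points of the first or of the second kind (for
  instance, points with a closed normal neighbourhood).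
-/

open Set Topology Filter
open Pool.Agent.H64GT

namespace Pool.Agent.Results.MP_20007a_gt.GameProducts

universe u

/-- Finite products of sequential `c_ω`-spaces. -/
theorem result {n : ℕ} (X : Fin n → Type u) [∀ i, TopologicalSpace (X i)] [∀ i, T3Space (X i)]
    [∀ i, SequentialSpace (X i)] (hc : ∀ i, IsCOmega (X i))
    (h : (∃ j, ∀ i, i ≠ j → FrechetUrysohnSpace (X i) ∨ ∀ x : X i, IsFirstKind x) ∨
      ∀ i, FrechetUrysohnSpace (X i) ∨ IsGroupSpace (X i) ∨ HasLocallyCompactPieces (X i) ∨
        HasSeparatedPieces (X i) ∨ ∀ x : X i, IsFirstKind x ∨ IsSecondKind x) :
    SequentialSpace (∀ i, X i) ∧ IsCOmega (∀ i, X i) :=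
  finite_product X hc h

end Pool.Agent.Results.MP_20007a_gt.GameProducts
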