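import Pool.Agent.H64GT.RealFn

set_option autoImplicit false

/-!
# Sequentially continuous maps on finite products of sequential `c_ω`-spaces

Every sequentially continuous map from a finite product of sequential `c_ω`-spaces to a completely
regular space is continuous. Hence the product is a sequential `c_ω`-space if and only if its
sequential coreflection is completely regular.
-/

open Set Topology Filter
open Pool.Agent.H64GT

namespace Pool.Agent.Results.MP_20007a_gt.RealFunctions

universe u v w

/-- Sequentially continuous maps from finite products of sequential `c_ω`-spaces to completely
regular spaces are continuous, and the product is a sequential `c_ω`-space if and only if its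
sequential coreflection is completely regular. -/
theorem result {ι : Type v} [Finite ι] (X : ι → Type u) [∀ i, TopologicalSpace (X i)]
    [∀ i, T35Space (X i)] [∀ i, SequentialSpace (X i)] (hc : ∀ i, IsCOmega (X i)) :
    (∀ (W : Type w) [TopologicalSpace W] [CompletelyRegularSpace W] (f : (∀ i, X i) → W),
      SeqContinuous f → Continuous f) ∧
    (SequentialSpace (∀ i, X i) ∧ IsCOmega (∀ i, X i) ↔
      @CompletelyRegularSpace (∀ i, X i) (seqTopology (∀ i, X i))) :=
  seqContinuous_pi X hc

end Pool.Agent.Results.MP_20007a_gt.RealFunctions
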